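import Pool.Agent.Helper37.RT.Defs

/-!
Row T8 of the sheet RT (MP_b01677_an, Q1, d = 2): from the coefficients of the
magnified copies to a Lipschitz bound in the translation vector.
-/

namespace Pool.Agent.Helper37.RT

open MeasureTheory Set Filter Topology

/-- the coordinate directions -/
noncomputable def t8_e (i : Fin 2) : ℝ × ℝ := if i = 0 then (1, 0) else (0, 1)

theorem t8_haar_meas : Measurable haar := by
  unfold haar
  refine Measurable.ite ?_ measurable_const (Measurable.ite ?_ measurable_const measurable_const)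
  · exact (measurableSet_le measurable_const measurable_id).inter
      (measurableSet_lt measurable_id measurable_const)
  · exact (measurableSet_le measurable_const measurable_id).inter
      (measurableSet_lt measurable_id measurable_const)

theorem t8_haar_abs (t : ℝ) : |haar t| ≤ 1 := by
  unfold haar
  split_ifs <;> simp

theorem t8_tent_right (t : ℝ) : HasDerivWithinAt tent (2 * haar t) (Ioi t) t := by
  rcases lt_or_ge t 0 with h0 | h0
  · have h1 : haar t = 0 := by
      unfold haar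
      rw [if_neg (by intro h; linarith [h.1]), if_neg (by intro h; linarith [h.1])]
    rw [h1, mul_zero]
    have hg : HasDerivWithinAt (fun _ : ℝ => (0 : ℝ)) 0 (Ioi t) t :=
      (hasDerivAt_const t (0 : ℝ)).hasDerivWithinAt
    have hv : ∀ y : ℝ, y < 0 → tent y = 0 := by
      intro y hy
      unfold tent
      rw [abs_of_nonpos (by linarith)]
      exact max_eq_left (by linarith)
    refine hg.congr_of_eventuallyEq ?_ (hv t h0)
    filter_upwards [eventually_nhdsWithin_of_eventually_nhds (eventually_lt_nhds h0)] with y hy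
    exact hv y hy
  rcases lt_or_ge t (1 / 2) with h2 | h2
  · have h1 : haar t = 1 := by
      unfold haar
      rw [if_pos ⟨h0, h2⟩]
    rw [h1, mul_one]
    have hg : HasDerivWithinAt (fun y : ℝ => 2 * y) 2 (Ioi t) t := by
      simpa using ((hasDerivAt_id t).const_mul 2).hasDerivWithinAt (s := Ioi t)
    have hv : ∀ y : ℝ, 0 ≤ y → y < 1 / 2 → tent y = 2 * y := by
      intro y hy hy2
      unfold tent
      rw [abs_of_nonpos (by linarith), max_eq_right (by linarith)]
      ring
    refine hg.congr_of_eventuallyEq ?_ (hv t h0 h2)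
    filter_upwards [eventually_nhdsWithin_of_eventually_nhds (eventually_lt_nhds h2),
      self_mem_nhdsWithin] with y hy hy2
    exact hv y (h0.trans (le_of_lt hy2)) hy
  rcases lt_or_ge t 1 with h3 | h3
  · have h1 : haar t = -1 := by
      unfold haar
      rw [if_neg (by intro h; linarith [h.2]), if_pos ⟨h2, h3⟩]
    rw [h1]
    have hg : HasDerivWithinAt (fun y : ℝ => 2 + (-2) * y) (2 * -1) (Ioi t) t := by
      have := (((hasDerivAt_id t).const_mul (-2 : ℝ)).const_add 2).hasDerivWithinAt (s := Ioi t)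
      simpa using this
    have hv : ∀ y : ℝ, 1 / 2 ≤ y → y < 1 → tent y = 2 + (-2) * y := by
      intro y hy hy2
      unfold tent
      rw [abs_of_nonneg (by linarith), max_eq_right (by linarith)]
      ring
    refine hg.congr_of_eventuallyEq ?_ (hv t h2 h3)
    filter_upwards [eventually_nhdsWithin_of_eventually_nhds (eventually_lt_nhds h3),
      self_mem_nhdsWithin] with y hy hy2
    exact hv y (h2.trans (le_of_lt hy2)) hy
  · have h1 : haar t = 0 := by
      unfold haar
      rw [if_neg (by intro h; linarith [h.2]), if_neg (by intro h; linarith [h.2])]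
    rw [h1, mul_zero]
    have hg : HasDerivWithinAt (fun _ : ℝ => (0 : ℝ)) 0 (Ioi t) t :=
      (hasDerivAt_const t (0 : ℝ)).hasDerivWithinAt
    have hv : ∀ y : ℝ, 1 ≤ y → tent y = 0 := by
      intro y hy
      unfold tent
      rw [abs_of_nonneg (by linarith)]
      exact max_eq_left (by linarith)
    refine hg.congr_of_eventuallyEq ?_ (hv t h3)
    filter_upwards [self_mem_nhdsWithin] with y hy
    exact hv y (h3.trans (le_of_lt hy))

theorem t8_ftc (a b c : ℝ) {N : ℝ} (hN : 0 < N) :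
    tent (N * b - c) - tent (N * a - c) = ∫ t in a..b, 2 * N * haar (N * t - c) := by
  have hc : Continuous fun t : ℝ => tent (N * t - c) := by
    unfold tent
    fun_prop
  have hd : ∀ t : ℝ, HasDerivWithinAt (fun t : ℝ => tent (N * t - c))
      (2 * N * haar (N * t - c)) (Ioi t) t := by
    intro t
    have h1 : HasDerivWithinAt (fun t : ℝ => N * t - c) N (Ioi t) t := by
      have := ((hasDerivAt_id t).const_mul N).sub_const c
      simpa using this.hasDerivWithinAt (s := Ioi t)
    have h2 := (t8_tent_right (N * t - c)).scomp t h1 (fun y (hy : t < y) => by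
      show N * t - c < N * y - c
      nlinarith)
    have e : N • (2 * haar (N * t - c)) = 2 * N * haar (N * t - c) := by
      rw [smul_eq_mul]
      ring
    rw [e] at h2
    exact h2
  have hm : Measurable fun t : ℝ => 2 * N * haar (N * t - c) :=
    (t8_haar_meas.comp (by fun_prop)).const_mul _
  have hi : IntervalIntegrable (fun t : ℝ => 2 * N * haar (N * t - c)) volume a b := by
    have h1 : IntervalIntegrable (fun _ : ℝ => (2 * N : ℝ)) volume a b := intervalIntegrable_const
    refine h1.mono_fun hm.aestronglyMeasurable (ae_of_all _ fun t => ?_)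
    have h2 := t8_haar_abs (N * t - c)
    simp only [norm_mul, Real.norm_eq_abs]
    calc |(2 : ℝ)| * |N| * |haar (N * t - c)| ≤ |(2 : ℝ)| * |N| * 1 :=
          mul_le_mul_of_nonneg_left h2 (by positivity)
      _ = |(2 : ℝ)| * |N| := mul_one _
  exact (intervalIntegral.integral_eq_sub_of_hasDeriv_right hc.continuousOn
    (fun t _ => hd t) hi).symm

theorem t8_tent_nonneg (t : ℝ) : 0 ≤ tent t := le_max_left _ _

theorem t8_tent_le (t : ℝ) : tent t ≤ 1 := by
  unfold tent
  have := abs_nonneg (2 * t - 1)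
  refine max_le (by norm_num) (by linarith)

theorem t8_tent_cont : Continuous tent := by
  unfold tent
  fun_prop

theorem t8_tent_abs (t : ℝ) : |tent t| ≤ 1 := by
  rw [abs_of_nonneg (t8_tent_nonneg t)]
  exact t8_tent_le t

theorem t8_dpsi_meas (i : Fin 2) (k : ℕ) (c : ℕ × ℕ) : Measurable (dpsi i k c) := by
  unfold dpsi
  split_ifs
  · have h1 : Measurable fun y : ℝ × ℝ => haar (2 ^ k * y.1 - c.1) :=
      t8_haar_meas.comp ((measurable_fst.const_mul _).sub_const _)
    have h2 : Measurable fun y : ℝ × ℝ => tent (2 ^ k * y.2 - c.2) :=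
      t8_tent_cont.measurable.comp ((measurable_snd.const_mul _).sub_const _)
    exact (h1.mul h2).const_mul _
  · have h1 : Measurable fun y : ℝ × ℝ => tent (2 ^ k * y.1 - c.1) :=
      t8_tent_cont.measurable.comp ((measurable_fst.const_mul _).sub_const _)
    have h2 : Measurable fun y : ℝ × ℝ => haar (2 ^ k * y.2 - c.2) :=
      t8_haar_meas.comp ((measurable_snd.const_mul _).sub_const _)
    exact (h1.mul h2).const_mul _

theorem t8_dpsi_abs (i : Fin 2) (k : ℕ) (c : ℕ × ℕ) (y : ℝ × ℝ) :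
    |dpsi i k c y| ≤ 2 ^ (k + 1) := by
  have hp : (0 : ℝ) ≤ 2 ^ (k + 1) := by positivity
  unfold dpsi
  split_ifs
  · rw [abs_mul, abs_mul, abs_of_nonneg hp]
    have h1 := t8_haar_abs (2 ^ k * y.1 - c.1)
    have h2 := t8_tent_abs (2 ^ k * y.2 - c.2)
    have h3 : |haar (2 ^ k * y.1 - c.1)| * |tent (2 ^ k * y.2 - c.2)| ≤ 1 := by
      nlinarith [abs_nonneg (haar (2 ^ k * y.1 - c.1)), abs_nonneg (tent (2 ^ k * y.2 - c.2))]
    calc (2 : ℝ) ^ (k + 1) * (|haar (2 ^ k * y.1 - c.1)| * |tent (2 ^ k * y.2 - c.2)|)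
        ≤ 2 ^ (k + 1) * 1 := mul_le_mul_of_nonneg_left h3 hp
      _ = 2 ^ (k + 1) := mul_one _
  · rw [abs_mul, abs_mul, abs_of_nonneg hp]
    have h1 := t8_haar_abs (2 ^ k * y.2 - c.2)
    have h2 := t8_tent_abs (2 ^ k * y.1 - c.1)
    have h3 : |tent (2 ^ k * y.1 - c.1)| * |haar (2 ^ k * y.2 - c.2)| ≤ 1 := by
      nlinarith [abs_nonneg (haar (2 ^ k * y.2 - c.2)), abs_nonneg (tent (2 ^ k * y.1 - c.1))]
    calc (2 : ℝ) ^ (k + 1) * (|tent (2 ^ k * y.1 - c.1)| * |haar (2 ^ k * y.2 - c.2)|)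
        ≤ 2 ^ (k + 1) * 1 := mul_le_mul_of_nonneg_left h3 hp
      _ = 2 ^ (k + 1) := mul_one _

theorem t8_psi_cont (k : ℕ) (c : ℕ × ℕ) : Continuous (psi k c) := by
  unfold psi
  exact (t8_tent_cont.comp (by fun_prop)).mul (t8_tent_cont.comp (by fun_prop))

theorem t8_psi_abs (k : ℕ) (c : ℕ × ℕ) (y : ℝ × ℝ) : |psi k c y| ≤ 1 := by
  unfold psi
  rw [abs_mul]
  have h1 := t8_tent_abs (2 ^ k * y.1 - c.1)
  have h2 := t8_tent_abs (2 ^ k * y.2 - c.2)
  nlinarith [abs_nonneg (tent (2 ^ k * y.1 - c.1)), abs_nonneg (tent (2 ^ k * y.2 - c.2))]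

/-- the difference of the bump along a coordinate direction -/
theorem t8_psi_diff
    (hftc : ∀ (a b c : ℝ) {N : ℝ}, 0 < N →
      tent (N * b - c) - tent (N * a - c) = ∫ t in a..b, 2 * N * haar (N * t - c))
    (i : Fin 2) (k : ℕ) (c : ℕ × ℕ) (y : ℝ × ℝ) (t : ℝ) :
    psi k c (y + t • t8_e i) - psi k c y = ∫ u in (0 : ℝ)..t, dpsi i k c (y + u • t8_e i) := by
  have hN : (0 : ℝ) < 2 ^ k := by positivity
  by_cases hi : i = 0
  · have e1 : ∀ u : ℝ, y + u • t8_e i = (y.1 + u, y.2) := by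
      intro u
      simp [t8_e, hi, Prod.ext_iff]
    have h := hftc y.1 (y.1 + t) c.1 hN
    have h2 : (∫ τ in y.1..(y.1 + t), 2 * (2 : ℝ) ^ k * haar (2 ^ k * τ - c.1))
        = ∫ u in (0 : ℝ)..t, 2 * (2 : ℝ) ^ k * haar (2 ^ k * (y.1 + u) - c.1) := by
      have := intervalIntegral.integral_comp_add_left
        (fun τ => 2 * (2 : ℝ) ^ k * haar (2 ^ k * τ - c.1)) y.1 (a := 0) (b := t)
      rw [this, add_zero]
    rw [h2] at h
    simp only [e1]
    simp only [psi, dpsi, if_pos hi]
    rw [← sub_mul, h, ← intervalIntegral.integral_mul_const]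
    refine intervalIntegral.integral_congr fun u _ => ?_
    rw [pow_succ]
    ring
  · have e1 : ∀ u : ℝ, y + u • t8_e i = (y.1, y.2 + u) := by
      intro u
      simp [t8_e, hi, Prod.ext_iff]
    have h := hftc y.2 (y.2 + t) c.2 hN
    have h2 : (∫ τ in y.2..(y.2 + t), 2 * (2 : ℝ) ^ k * haar (2 ^ k * τ - c.2))
        = ∫ u in (0 : ℝ)..t, 2 * (2 : ℝ) ^ k * haar (2 ^ k * (y.2 + u) - c.2) := by
      have := intervalIntegral.integral_comp_add_left
        (fun τ => 2 * (2 : ℝ) ^ k * haar (2 ^ k * τ - c.2)) y.2 (a := 0) (b := t)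
      rw [this, add_zero]
    rw [h2] at h
    simp only [e1]
    simp only [psi, dpsi, if_neg hi]
    rw [← mul_sub, h, ← intervalIntegral.integral_const_mul]
    refine intervalIntegral.integral_congr fun u _ => ?_
    rw [pow_succ]
    ring

/-- the magnified copy of a bounded set is integrable -/
theorem t8_ff_int {E : Set (ℝ × ℝ)} (hE : MeasurableSet E) (hb : Bornology.IsBounded E)
    {r : ℝ} (hr : 0 < r) (x : ℝ × ℝ) : Integrable (ff E r x) := by
  obtain ⟨L, hL⟩ := hb.subset_closedBall 0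
  have hcont : Continuous fun y : ℝ × ℝ => r⁻¹ • (y - x) := by fun_prop
  have hS : MeasurableSet ((fun y : ℝ × ℝ => r⁻¹ • (y - x)) ⁻¹' E) := hcont.measurable hE
  have hsub : (fun y : ℝ × ℝ => r⁻¹ • (y - x)) ⁻¹' E ⊆ Metric.closedBall x (r * L) := by
    intro y hy
    have h1 := hL hy
    rw [mem_closedBall_zero_iff, norm_smul, Real.norm_of_nonneg (inv_nonneg.mpr hr.le)] at h1
    rw [Metric.mem_closedBall, dist_eq_norm]
    calc ‖y - x‖ = r * (r⁻¹ * ‖y - x‖) := by field_simp
      _ ≤ r * L := mul_le_mul_of_nonneg_left h1 hr.le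
  have hfin : volume ((fun y : ℝ × ℝ => r⁻¹ • (y - x)) ⁻¹' E) ≠ ⊤ :=
    ((measure_mono hsub).trans_lt measure_closedBall_lt_top).ne
  have he : ff E r x = ((fun y : ℝ × ℝ => r⁻¹ • (y - x)) ⁻¹' E).indicator fun _ => (1 : ℝ) := by
    funext y
    unfold ff
    by_cases h : r⁻¹ • (y - x) ∈ E
    · rw [indicator_of_mem h, indicator_of_mem (show y ∈ (fun y : ℝ × ℝ => r⁻¹ • (y - x)) ⁻¹' E from h)]
    · rw [indicator_of_notMem h,
        indicator_of_notMem (show y ∉ (fun y : ℝ × ℝ => r⁻¹ • (y - x)) ⁻¹' E from h)]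
  rw [he]
  exact (integrable_indicator_iff hS).mpr (integrableOn_const hfin)

theorem t8_ff_shift (E : Set (ℝ × ℝ)) (r : ℝ) (x z : ℝ × ℝ) : ff E r x (z + x) = ff E r 0 z := by
  unfold ff
  simp

theorem t8_shift (E : Set (ℝ × ℝ)) (r : ℝ) (x : ℝ × ℝ) (F : ℝ × ℝ → ℝ) :
    ∫ y, F y * ff E r x y = ∫ z, F (z + x) * ff E r 0 z := by
  rw [← integral_add_right_eq_self (fun y => F y * ff E r x y) x]
  refine integral_congr_ae (ae_of_all _ fun z => ?_)
  simp only [t8_ff_shift]

theorem t8_mul_int {E : Set (ℝ × ℝ)} (hE : MeasurableSet E) (hb : Bornology.IsBounded E)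
    {r : ℝ} (hr : 0 < r) (x : ℝ × ℝ) {F : ℝ × ℝ → ℝ} (hF : Measurable F) {B : ℝ}
    (hB : ∀ y, |F y| ≤ B) : Integrable fun y => F y * ff E r x y :=
  (t8_ff_int hE hb hr x).bdd_mul hF.aestronglyMeasurable (ae_of_all _ hB)

/-- joint integrability in the translation and the point -/
theorem t8_fub {E : Set (ℝ × ℝ)} (hE : MeasurableSet E) (hb : Bornology.IsBounded E)
    {r : ℝ} (hr : 0 < r) (i : Fin 2) (k : ℕ) (c : ℕ × ℕ) (x : ℝ × ℝ) (t : ℝ) :
    Integrable (Function.uncurry fun (u : ℝ) (z : ℝ × ℝ) =>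
      dpsi i k c (z + x + u • t8_e i) * ff E r 0 z)
      ((volume.restrict (Set.uIoc 0 t)).prod (volume : Measure (ℝ × ℝ))) := by
  have hm : Measurable (Function.uncurry fun (u : ℝ) (z : ℝ × ℝ) =>
      dpsi i k c (z + x + u • t8_e i)) := by
    refine (t8_dpsi_meas i k c).comp ?_
    exact ((measurable_snd.add_const x).add (measurable_fst.smul_const _))
  have hg : Integrable (fun p : ℝ × (ℝ × ℝ) => ff E r 0 p.2)
      ((volume.restrict (Set.uIoc 0 t)).prod (volume : Measure (ℝ × ℝ))) := by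
    have h1 : Integrable (fun _ : ℝ => (1 : ℝ)) (volume.restrict (Set.uIoc 0 t)) := by
      refine integrableOn_const (by simp [Set.uIoc])
    have := h1.mul_prod (t8_ff_int hE hb hr 0)
    simpa only [one_mul] using this
  exact hg.bdd_mul hm.aestronglyMeasurable (ae_of_all _ fun p => t8_dpsi_abs i k c _)

theorem t8_bb_eq (E : Set (ℝ × ℝ)) (i : Fin 2) (k : ℕ) (c : ℕ × ℕ) (r : ℝ) (x : ℝ × ℝ) (u : ℝ) :
    bb E i k c r (x + u • t8_e i) = ∫ z, dpsi i k c (z + x + u • t8_e i) * ff E r 0 z := by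
  unfold bb
  rw [t8_shift]
  refine integral_congr_ae (ae_of_all _ fun z => ?_)
  simp only [add_assoc]

/-- one bump along a coordinate direction -/
theorem t8_bump
    (hftc : ∀ (a b c : ℝ) {N : ℝ}, 0 < N →
      tent (N * b - c) - tent (N * a - c) = ∫ t in a..b, 2 * N * haar (N * t - c))
    {E : Set (ℝ × ℝ)} (hE : MeasurableSet E) (hb : Bornology.IsBounded E)
    {r : ℝ} (hr : 0 < r) (i : Fin 2) (k : ℕ) (c : ℕ × ℕ) (x : ℝ × ℝ) (t : ℝ) :
    (∫ y, psi k c y * ff E r (x + t • t8_e i) y) - ∫ y, psi k c y * ff E r x y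
      = ∫ u in (0 : ℝ)..t, bb E i k c r (x + u • t8_e i) := by
  have hmeas : ∀ w : ℝ × ℝ, Measurable fun z : ℝ × ℝ => psi k c (z + w) := fun w =>
    ((t8_psi_cont k c).comp (by fun_prop)).measurable
  rw [t8_shift, t8_shift E r x, ← integral_sub
    (t8_mul_int hE hb hr 0 (hmeas _) fun y => t8_psi_abs k c _)
    (t8_mul_int hE hb hr 0 (hmeas _) fun y => t8_psi_abs k c _)]
  simp only [t8_bb_eq]
  rw [intervalIntegral_integral_swap (t8_fub hE hb hr i k c x t)]
  refine integral_congr_ae (ae_of_all _ fun z => ?_)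
  simp only
  rw [← sub_mul, intervalIntegral.integral_mul_const, ← t8_psi_diff hftc i k c (z + x) t]
  simp only [add_assoc]

/-- the whole correction along a coordinate direction -/
theorem t8_line
    (hftc : ∀ (a b c : ℝ) {N : ℝ}, 0 < N →
      tent (N * b - c) - tent (N * a - c) = ∫ t in a..b, 2 * N * haar (N * t - c))
    {E : Set (ℝ × ℝ)} (hE : MeasurableSet E) (hb : Bornology.IsBounded E)
    {s : ℕ → ℕ × ℕ → ℝ} {K n : ℕ} {r : ℝ} (hr : 0 < r) (i : Fin 2) (x : ℝ × ℝ) (t : ℝ) :
    (∫ y, corr s K n y * ff E r (x + t • t8_e i) y) - ∫ y, corr s K n y * ff E r x y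
      = ∫ u in (0 : ℝ)..t, lin s (fun k c => bb E i k c r (x + u • t8_e i)) K n := by
  have hI : ∀ (k : ℕ) (c : ℕ × ℕ) (w : ℝ × ℝ), Integrable fun y => psi k c y * ff E r w y :=
    fun k c w => t8_mul_int hE hb hr w (t8_psi_cont k c).measurable (t8_psi_abs k c)
  have hsum : ∀ w : ℝ × ℝ, ∫ y, corr s K n y * ff E r w y
      = ∑ k ∈ Finset.Ico K (K + n), ∑ c ∈ cells k, s k c * ∫ y, psi k c y * ff E r w y := by
    intro w
    have h1 : (fun y => corr s K n y * ff E r w y)
        = fun y => ∑ k ∈ Finset.Ico K (K + n), ∑ c ∈ cells k, s k c * (psi k c y * ff E r w y) := by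
      funext y
      unfold corr
      rw [Finset.sum_mul]
      refine Finset.sum_congr rfl fun k _ => ?_
      rw [Finset.sum_mul]
      refine Finset.sum_congr rfl fun c _ => ?_
      ring
    rw [h1, integral_finsetSum]
    · refine Finset.sum_congr rfl fun k _ => ?_
      rw [integral_finsetSum]
      · refine Finset.sum_congr rfl fun c _ => ?_
        rw [integral_const_mul]
      · intro c _
        exact (hI k c w).const_mul _
    · intro k _
      exact integrable_finsetSum _ fun c _ => (hI k c w).const_mul _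
  have hII : ∀ (k : ℕ) (c : ℕ × ℕ), IntervalIntegrable
      (fun u => bb E i k c r (x + u • t8_e i)) volume 0 t := by
    intro k c
    rw [intervalIntegrable_iff]
    simp only [t8_bb_eq]
    exact (t8_fub hE hb hr i k c x t).integral_prod_left
  rw [hsum, hsum, ← Finset.sum_sub_distrib]
  unfold lin
  rw [intervalIntegral.integral_finsetSum]
  · refine Finset.sum_congr rfl fun k _ => ?_
    rw [← Finset.sum_sub_distrib, intervalIntegral.integral_finsetSum]
    · refine Finset.sum_congr rfl fun c _ => ?_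
      rw [← mul_sub, t8_bump hftc hE hb hr, intervalIntegral.integral_const_mul]
    · intro c _
      exact (hII k c).const_mul _
  · intro k _
    have h5 := IntervalIntegrable.sum (cells k)
      (f := fun c u => s k c * bb E i k c r (x + u • t8_e i)) (μ := volume) (a := 0) (b := t)
      fun c _ => (hII k c).const_mul _
    rw [Finset.sum_fn] at h5
    exact h5

/-- the Lipschitz bound, from the formula for the differences of the tent -/
theorem corr_lip_x_of
    (hftc : ∀ (a b c : ℝ) {N : ℝ}, 0 < N →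
      tent (N * b - c) - tent (N * a - c) = ∫ t in a..b, 2 * N * haar (N * t - c))
    {E : Set (ℝ × ℝ)} (hE : MeasurableSet E) (hb : Bornology.IsBounded E)
    {s : ℕ → ℕ × ℕ → ℝ} {K n : ℕ} {r : ℝ} (hr : 0 < r) {M : ℝ}
    (hM : ∀ (i : Fin 2) (x : ℝ × ℝ), |lin s (fun k c => bb E i k c r x) K n| ≤ M) (x x' : ℝ × ℝ) :
    |(∫ y, corr s K n y * ff E r x y) - ∫ y, corr s K n y * ff E r x' y| ≤ 2 * M * dist x x' := by
  have hline : ∀ (i : Fin 2) (w : ℝ × ℝ) (t : ℝ),
      |(∫ y, corr s K n y * ff E r (w + t • t8_e i) y) - ∫ y, corr s K n y * ff E r w y|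
        ≤ M * |t| := by
    intro i w t
    rw [t8_line hftc hE hb hr i w t]
    have := intervalIntegral.norm_integral_le_of_norm_le_const
      (f := fun u => lin s (fun k c => bb E i k c r (w + u • t8_e i)) K n) (a := 0) (b := t) (C := M)
      fun u _ => by
        rw [Real.norm_eq_abs]
        exact hM i _
    rw [Real.norm_eq_abs, sub_zero] at this
    exact this
  have hM0 : 0 ≤ M := (abs_nonneg _).trans (hM 0 0)
  have h1 := hline 0 x (x'.1 - x.1)
  have h2 := hline 1 (x + (x'.1 - x.1) • t8_e 0) (x'.2 - x.2)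
  have e1 : x + (x'.1 - x.1) • t8_e 0 + (x'.2 - x.2) • t8_e 1 = x' := by
    simp [t8_e, Prod.ext_iff]
  rw [e1] at h2
  have d1 : |x'.1 - x.1| ≤ dist x x' := by
    rw [abs_sub_comm, ← Real.dist_eq]
    exact (le_max_left _ _).trans_eq (Prod.dist_eq).symm
  have d2 : |x'.2 - x.2| ≤ dist x x' := by
    rw [abs_sub_comm, ← Real.dist_eq]
    exact (le_max_right _ _).trans_eq (Prod.dist_eq).symm
  have h3 : M * |x'.1 - x.1| ≤ M * dist x x' := mul_le_mul_of_nonneg_left d1 hM0
  have h4 : M * |x'.2 - x.2| ≤ M * dist x x' := mul_le_mul_of_nonneg_left d2 hM0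
  rw [abs_le] at h1 h2 ⊢
  constructor <;> linarith [h1.1, h1.2, h2.1, h2.2]

/-- ROW T8 : from the coefficients to the Lipschitz bound -/
theorem corr_lip_x {E : Set (ℝ × ℝ)} (hE : MeasurableSet E) (hb : Bornology.IsBounded E)
    {s : ℕ → ℕ × ℕ → ℝ} {K n : ℕ} {r : ℝ} (hr : 0 < r) {M : ℝ}
    (hM : ∀ (i : Fin 2) (x : ℝ × ℝ), |lin s (fun k c => bb E i k c r x) K n| ≤ M) (x x' : ℝ × ℝ) :
    |(∫ y, corr s K n y * ff E r x y) - ∫ y, corr s K n y * ff E r x' y| ≤ 2 * M * dist x x' :=
  corr_lip_x_of (fun a b c _ hN => t8_ftc a b c hN) hE hb hr hM x x'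

end Pool.Agent.Helper37.RT
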